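import Pool.Agent.N27.QV.LTa

/-!
# QVL/LT, second part: the Liouville function at `f(m) - f(h) + c` (helper27)
-/

set_option autoImplicit false

namespace Pool.Agent.N27.QV

open Finset Pool.Agent.N728.QL Pool.Agent.N728.QG Pool.Agent.N728.QU

noncomputable section

/-- repeated halving, rounded up -/
def hv : ℕ → ℕ → ℕ
  | 0, H => H
  | (i + 1), H => (hv i H + 1) / 2

theorem hv_lower (i H : ℕ) : H ≤ 2 ^ i * hv i H := by
  induction i with
  | zero => simp [hv]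
  | succ i ih =>
    show H ≤ 2 ^ (i + 1) * ((hv i H + 1) / 2)
    have h1 : hv i H ≤ 2 * ((hv i H + 1) / 2) := by omega
    calc H ≤ 2 ^ i * hv i H := ih
      _ ≤ 2 ^ i * (2 * ((hv i H + 1) / 2)) := Nat.mul_le_mul_left _ h1
      _ = 2 ^ (i + 1) * ((hv i H + 1) / 2) := by ring

theorem hv_upper (i H : ℕ) : 2 ^ i * hv i H ≤ H + 2 ^ i := by
  induction i with
  | zero => simp [hv]
  | succ i ih =>
    show 2 ^ (i + 1) * ((hv i H + 1) / 2) ≤ H + 2 ^ (i + 1)
    have h1 : 2 * ((hv i H + 1) / 2) ≤ hv i H + 1 := by omega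
    calc 2 ^ (i + 1) * ((hv i H + 1) / 2) = 2 ^ i * (2 * ((hv i H + 1) / 2)) := by ring
      _ ≤ 2 ^ i * (hv i H + 1) := Nat.mul_le_mul_left _ h1
      _ = 2 ^ i * hv i H + 2 ^ i := by ring
      _ ≤ H + 2 ^ i + 2 ^ i := by omega
      _ = H + 2 ^ (i + 1) := by ring

theorem hv_le (i H : ℕ) : hv i H ≤ H := by
  induction i with
  | zero => exact le_rfl
  | succ i ih =>
    show (hv i H + 1) / 2 ≤ H
    omega

theorem hv_sum {F : ℕ → ℝ} (hF : ∀ h, 0 ≤ F h) {β : ℝ} (I H : ℕ)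
    (h : ∀ i, 1 ≤ i → i ≤ I → ∑ h ∈ Ioc (hv i H) (2 * hv i H), F h ≤ β) :
    ∑ h ∈ Icc 1 H, F h ≤ ∑ h ∈ Icc 1 (hv I H), F h + I * β := by
  induction I with
  | zero => simp [hv]
  | succ I ih =>
    have h1 := ih fun i h1 h2 => h i h1 (by omega)
    have h2 := h (I + 1) (by omega) le_rfl
    have h3 : ∑ h ∈ Icc 1 (hv I H), F h ≤ ∑ h ∈ Icc 1 (hv (I + 1) H), F h +
        ∑ h ∈ Ioc (hv (I + 1) H) (2 * hv (I + 1) H), F h := by
      rw [← Finset.sum_union]
      · refine Finset.sum_le_sum_of_subset_of_nonneg ?_ fun _ _ _ => hF _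
        intro x hx
        rw [mem_Icc] at hx
        rw [mem_union, mem_Icc, mem_Ioc]
        have : hv (I + 1) H = (hv I H + 1) / 2 := rfl
        omega
      · rw [Finset.disjoint_left]
        intro m h1 h2
        rw [mem_Icc] at h1
        rw [mem_Ioc] at h2
        omega
    push_cast
    linarith

/-- the sum over all `h` -/
theorem allh (hM : ∀ G : Polynomial ℤ, 1 ≤ G.natDegree → S_MCL2u G) {A : ℕ} (hA : 1 ≤ A) (b : ℤ)
    (K : ℕ) (hK : 1 ≤ K) (ε : ℝ) (hε : 0 < ε) : ∃ H0 : ℕ, ∀ H : ℕ, H0 ≤ H → ∀ (M : ℕ) (c : ℤ),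
    c ≠ 0 → c.natAbs ≤ K * H ^ 2 → M ≤ K * H →
    ∑ h ∈ Icc 1 H, |∑ m ∈ Icc 1 M, lam (Vg A b 1 c h m)| ≤ ε * (H : ℝ) ^ 2 := by
  obtain ⟨I, hI⟩ := exists_nat_ge (4 * K / ε)
  have hKr : (1 : ℝ) ≤ K := by exact_mod_cast hK
  have h2I : (0 : ℝ) < 2 ^ I := by positivity
  have hI2 : 4 * (K : ℝ) ≤ ε * 2 ^ I := by
    have e1 : (I : ℝ) ≤ 2 ^ I := by exact_mod_cast Nat.lt_two_pow_self.le
    rw [div_le_iff₀ hε] at hI
    nlinarith
  obtain ⟨ε1, hε1⟩ : ∃ ε1, ε1 = ε / (2 * (I + 1)) := ⟨_, rfl⟩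
  have hε10 : 0 < ε1 := by
    rw [hε1]
    positivity
  obtain ⟨H1, hH1⟩ := dyad hM hA b (K * 4 ^ I) (Nat.one_le_iff_ne_zero.2 (by positivity)) ε1 hε10
  refine ⟨2 ^ I * (H1 + 1), fun H hH M c hc hcK hMK => ?_⟩
  have hH1' : 2 ^ I ≤ H := by
    calc 2 ^ I = 2 ^ I * 1 := by ring
      _ ≤ 2 ^ I * (H1 + 1) := Nat.mul_le_mul_left _ (by omega)
      _ ≤ H := hH
  have hH0 : (0 : ℝ) ≤ H := Nat.cast_nonneg _
  obtain ⟨F, hF⟩ : ∃ F : ℕ → ℝ, F = fun h : ℕ => |∑ m ∈ Icc 1 M, lam (Vg A b 1 c h m)| :=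
    ⟨_, rfl⟩
  have hF0 : ∀ h, 0 ≤ F h := fun h => by
    rw [hF]
    exact abs_nonneg _
  have hF1 : ∀ h, F h ≤ K * H := fun h => by
    rw [hF]
    refine (Finset.abs_sum_le_sum_abs _ _).trans ?_
    refine (Finset.sum_le_sum fun t _ => lam_abs _).trans ?_
    rw [Finset.sum_const, Nat.card_Icc, nsmul_eq_mul, mul_one]
    have : M + 1 - 1 ≤ K * H := by omega
    exact_mod_cast this
  have h1 := hv_sum hF0 (β := ε1 * (H : ℝ) ^ 2) I H (by
    intro i hi1 hi2
    have e1 := hv_lower i H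
    have e2 : 2 ^ i ≤ 2 ^ I := Nat.pow_le_pow_right (by norm_num) hi2
    have e3 : H ≤ 2 ^ I * hv i H := e1.trans (Nat.mul_le_mul_right _ e2)
    have e4 : H1 ≤ hv i H := by
      have : 2 ^ I * (H1 + 1) ≤ 2 ^ I * hv i H := hH.trans e3
      have := Nat.le_of_mul_le_mul_left this (by positivity)
      omega
    have e5 : H * H ≤ (2 ^ I * hv i H) * (2 ^ I * hv i H) := Nat.mul_le_mul e3 e3
    have e6 : (4 : ℕ) ^ I = 2 ^ I * 2 ^ I := by
      rw [← mul_pow]
      norm_num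
    have e7 : 2 ^ I ≤ (4 : ℕ) ^ I := Nat.pow_le_pow_left (by norm_num) I
    have h3 := hH1 (hv i H) e4 M c hc (by
      calc c.natAbs ≤ K * H ^ 2 := hcK
        _ = K * (H * H) := by ring
        _ ≤ K * ((2 ^ I * hv i H) * (2 ^ I * hv i H)) := Nat.mul_le_mul_left _ e5
        _ = K * 4 ^ I * hv i H ^ 2 := by rw [e6]; ring) (by
      calc M ≤ K * H := hMK
        _ ≤ K * (2 ^ I * hv i H) := Nat.mul_le_mul_left _ e3
        _ ≤ K * (4 ^ I * hv i H) := Nat.mul_le_mul_left _ (Nat.mul_le_mul_right _ e7)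
        _ = K * 4 ^ I * hv i H := by ring)
    rw [hF]
    refine h3.trans (mul_le_mul_of_nonneg_left ?_ hε10.le)
    have e8 : (hv i H : ℝ) ≤ H := by exact_mod_cast hv_le i H
    exact pow_le_pow_left₀ (Nat.cast_nonneg _) e8 2)
  have h2 : ∑ h ∈ Icc 1 (hv I H), F h ≤ ε / 2 * (H : ℝ) ^ 2 := by
    have e1 : ∑ h ∈ Icc 1 (hv I H), F h ≤ hv I H * (K * H) := by
      refine (Finset.sum_le_sum fun h _ => hF1 h).trans ?_
      rw [Finset.sum_const, Nat.card_Icc, nsmul_eq_mul]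
      rw [Nat.add_sub_cancel]
    have e2 : (2 : ℝ) ^ I * hv I H ≤ 2 * H := by
      have : 2 ^ I * hv I H ≤ 2 * H := by
        have := hv_upper I H
        omega
      exact_mod_cast this
    have e3 : (hv I H : ℝ) * (K * H) ≤ ε / 2 * (H : ℝ) ^ 2 := by
      have e4 : (4 * (K : ℝ)) * (hv I H : ℝ) ≤ (ε * 2 ^ I) * (hv I H : ℝ) :=
        mul_le_mul_of_nonneg_right hI2 (Nat.cast_nonneg _)
      have e5 : ε * (2 ^ I * (hv I H : ℝ)) ≤ ε * (2 * H) := mul_le_mul_of_nonneg_left e2 hε.le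
      have e6 : (K : ℝ) * hv I H ≤ ε / 2 * H := by nlinarith
      calc (hv I H : ℝ) * (K * H) = (K * hv I H) * H := by ring
        _ ≤ (ε / 2 * H) * H := mul_le_mul_of_nonneg_right e6 hH0
        _ = ε / 2 * (H : ℝ) ^ 2 := by ring
    exact e1.trans e3
  have h4 : (I : ℝ) * (ε1 * (H : ℝ) ^ 2) ≤ ε / 2 * (H : ℝ) ^ 2 := by
    rw [← mul_assoc]
    apply mul_le_mul_of_nonneg_right _ (by positivity)
    rw [hε1, mul_div_assoc', div_le_div_iff₀ (by positivity) (by norm_num)]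
    nlinarith
  rw [hF] at h1 h2
  linarith

theorem t_LT (a b : ℤ) (ha : 1 ≤ a) (hM : ∀ G : Polynomial ℤ, 1 ≤ G.natDegree → S_MCL2u G) :
    FinalLT a b := by
  classical
  obtain ⟨A, rfl⟩ := Int.eq_ofNat_of_zero_le (show (0 : ℤ) ≤ a by omega)
  have hA : 1 ≤ A := by exact_mod_cast ha
  intro ε K hε
  -- the grid
  obtain ⟨N0, hN0⟩ := exists_nat_ge (4 / ε)
  obtain ⟨N, hN⟩ : ∃ N, N = N0 + 1 := ⟨_, rfl⟩
  have hN1 : 1 ≤ N := by omega
  have hNr : (0 : ℝ) < N := by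
    exact_mod_cast hN1
  have hNε : 4 ≤ ε * N := by
    have e1 : (N0 : ℝ) ≤ N := by
      have : N0 ≤ N := by omega
      exact_mod_cast this
    have e2 : 4 / ε ≤ N := hN0.trans e1
    rw [div_le_iff₀ hε] at e2
    linarith
  obtain ⟨ε1, hε1⟩ : ∃ ε1, ε1 = ε ^ 2 / (2 * (K * N + 1)) := ⟨_, rfl⟩
  have hε10 : 0 < ε1 := by
    rw [hε1]
    positivity
  obtain ⟨H1, hH1⟩ := allh hM hA b (K + 1) (by omega) ε1 hε10
  refine ⟨max H1 ((K + 1) * N), fun H hH c hc hcK => ?_⟩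
  have hHH1 : H1 ≤ H := (le_max_left _ _).trans hH
  have hKNH : (K + 1) * N ≤ H := (le_max_right _ _).trans hH
  have hNH : N ≤ H := by
    have : 1 * N ≤ (K + 1) * N := Nat.mul_le_mul_right _ (by omega)
    omega
  have hKNH' : K * N ≤ H := by
    have : K * N ≤ (K + 1) * N := Nat.mul_le_mul_right _ (by omega)
    omega
  have hHr : (0 : ℝ) < H := by
    have : 0 < H := by omega
    exact_mod_cast this
  obtain ⟨G, hG⟩ : ∃ G, G = H / N + 1 := ⟨_, rfl⟩
  have hG1 : H ≤ N * G := by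
    rw [hG]
    exact (Nat.lt_mul_div_succ H (by omega)).le
  have hG2 : N * G ≤ 2 * H := by
    rw [hG, Nat.mul_add, Nat.mul_one]
    have := Nat.mul_div_le H N
    omega
  have hG3 : N * G ≤ H + N := by
    rw [hG, Nat.mul_add, Nat.mul_one]
    have := Nat.mul_div_le H N
    omega
  have hG0 : 1 ≤ G := by
    rw [hG]
    exact Nat.le_add_left 1 _
  have hGε : (G : ℝ) ≤ ε / 2 * H := by
    have e1 : (N : ℝ) * G ≤ 2 * H := by exact_mod_cast hG2
    have e2 : (4 : ℝ) * G ≤ ε * (N * G) := by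
      have := mul_le_mul_of_nonneg_right hNε (Nat.cast_nonneg G : (0 : ℝ) ≤ G)
      linarith
    have e3 : ε * (N * G) ≤ ε * (2 * H) := mul_le_mul_of_nonneg_left e1 hε.le
    linarith
  obtain ⟨S, hS⟩ : ∃ S : ℕ → ℕ → ℝ, S = fun h M => ∑ m ∈ Icc 1 M, lam (Vg A b 1 c h m) := ⟨_, rfl⟩
  have hSd : ∀ h M j : ℕ, j = M / G → |S h M| ≤ |S h (j * G)| + G := by
    intro h M j hj
    have e1 : j * G ≤ M := by
      rw [hj]
      exact Nat.div_mul_le_self M G
    have e2 : M - j * G ≤ G := by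
      have := Nat.lt_mul_div_succ M (show 0 < G by omega)
      rw [← hj] at this
      have e3 : G * (j + 1) = j * G + G := by ring
      omega
    have e3 := diff_le (fun m => lam (Vg A b 1 c h m)) e1 le_rfl le_rfl
    have e4 : ∑ t ∈ Ioc (j * G) M, |lam (Vg A b 1 c h t)| ≤ G := by
      refine (Finset.sum_le_sum fun t _ => lam_abs _).trans ?_
      rw [Finset.sum_const, Nat.card_Ioc, nsmul_eq_mul, mul_one]
      exact_mod_cast e2
    have e5 : |S h M - S h (j * G)| ≤ G := by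
      rw [hS]
      exact e3.trans e4
    have e6 := abs_sub_abs_le_abs_sub (S h M) (S h (j * G))
    linarith
  -- Markov
  have hmk : ∀ j ∈ range (K * N + 1),
      (((Icc 1 H).filter (fun h : ℕ => ε / 2 * H < |S h (j * G)|)).card : ℝ) ≤
        ε / (K * N + 1) * H := by
    intro j hj
    rw [mem_range] at hj
    have e1 : j * G ≤ (K + 1) * H := by
      calc j * G ≤ (K * N) * G := Nat.mul_le_mul_right _ (by omega)
        _ = K * (N * G) := by ring
        _ ≤ K * (H + N) := Nat.mul_le_mul_left _ hG3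
        _ = K * H + K * N := by ring
        _ ≤ K * H + H := by omega
        _ = (K + 1) * H := by ring
    have e2 := hH1 H hHH1 (j * G) c hc (hcK.trans (Nat.mul_le_mul_right _ (by omega))) e1
    have e3 : (((Icc 1 H).filter (fun h : ℕ => ε / 2 * H < |S h (j * G)|)).card : ℝ) *
        (ε / 2 * H) ≤ ∑ h ∈ Icc 1 H, |S h (j * G)| := by
      calc (((Icc 1 H).filter (fun h : ℕ => ε / 2 * H < |S h (j * G)|)).card : ℝ) * (ε / 2 * H)
          = ∑ _h ∈ (Icc 1 H).filter (fun h : ℕ => ε / 2 * H < |S h (j * G)|), (ε / 2 * H) := by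
            rw [Finset.sum_const, nsmul_eq_mul]
        _ ≤ ∑ h ∈ (Icc 1 H).filter (fun h : ℕ => ε / 2 * H < |S h (j * G)|), |S h (j * G)| := by
            refine Finset.sum_le_sum fun h hh => ?_
            rw [mem_filter] at hh
            exact hh.2.le
        _ ≤ ∑ h ∈ Icc 1 H, |S h (j * G)| :=
            Finset.sum_le_sum_of_subset_of_nonneg (Finset.filter_subset _ _)
              fun _ _ _ => abs_nonneg _
    have e4 : ∑ h ∈ Icc 1 H, |S h (j * G)| ≤ ε1 * (H : ℝ) ^ 2 := by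
      rw [hS]
      exact e2
    have e5 : ε1 * (H : ℝ) ^ 2 = ε / (K * N + 1) * H * (ε / 2 * H) := by
      rw [hε1]
      field_simp
    have e6 := e3.trans e4
    rw [e5] at e6
    exact le_of_mul_le_mul_right e6 (by positivity)
  have hsub : (Icc 1 H).filter (fun h : ℕ => ∃ M : ℕ, M ≤ K * H ∧
      ε * H < |∑ m ∈ Icc 1 M, lam (Vg A b 1 c h m)|) ⊆
      (range (K * N + 1)).biUnion fun j =>
        (Icc 1 H).filter (fun h : ℕ => ε / 2 * H < |S h (j * G)|) := by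
    intro h hh
    rw [mem_filter] at hh
    obtain ⟨hh1, M, hM1, hM2⟩ := hh
    rw [mem_biUnion]
    refine ⟨M / G, ?_, ?_⟩
    · rw [mem_range, Nat.lt_succ_iff]
      have e1 : M ≤ (K * N) * G := by
        calc M ≤ K * H := hM1
          _ ≤ K * (N * G) := Nat.mul_le_mul_left _ hG1
          _ = (K * N) * G := by ring
      calc M / G ≤ ((K * N) * G) / G := Nat.div_le_div_right e1
        _ = K * N := Nat.mul_div_cancel _ (by omega)
    · rw [mem_filter]
      refine ⟨hh1, ?_⟩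
      have e1 := hSd h M (M / G) rfl
      have e2 : ε * H < |S h M| := by
        rw [hS]
        exact hM2
      linarith
  calc (((Icc 1 H).filter (fun h : ℕ => ∃ M : ℕ, M ≤ K * H ∧
        ε * H < |∑ m ∈ Icc 1 M, lam (Vg A b 1 c h m)|)).card : ℝ)
      ≤ (((range (K * N + 1)).biUnion fun j =>
        (Icc 1 H).filter (fun h : ℕ => ε / 2 * H < |S h (j * G)|)).card : ℝ) := by
        exact_mod_cast Finset.card_le_card hsub
    _ ≤ ∑ j ∈ range (K * N + 1),
        (((Icc 1 H).filter (fun h : ℕ => ε / 2 * H < |S h (j * G)|)).card : ℝ) := by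
        exact_mod_cast Finset.card_biUnion_le
    _ ≤ ∑ _j ∈ range (K * N + 1), ε / (K * N + 1) * H := Finset.sum_le_sum hmk
    _ = ε * H := by
        rw [Finset.sum_const, card_range, nsmul_eq_mul]
        push_cast
        field_simp

end

end Pool.Agent.N27.QV
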