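import Pool.Agent.N728.QU.DefLT

/-!
# QVL/LT, first part: the blocks (helper27, after helper704 and helper519)
-/

set_option autoImplicit false

namespace Pool.Agent.N27.QV

open Finset Pool.Agent.N728.QL Pool.Agent.N728.QG Pool.Agent.N728.QU

noncomputable section

theorem split_h (f : ℕ → ℝ) (h M : ℕ) (hh : 1 ≤ h) : ∑ m ∈ Icc 1 M, f m =
    ∑ m ∈ Icc 1 (min M (h - 1)), f m + (if h ≤ M then f h else 0) + ∑ m ∈ Ioc h M, f m := by
  by_cases hM : h ≤ M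
  · rw [if_pos hM, min_eq_right (by omega)]
    have e1 : Icc 1 M = insert h (Icc 1 (h - 1)) ∪ Ioc h M := by
      ext m
      simp only [mem_union, mem_insert, mem_Icc, mem_Ioc]
      omega
    rw [e1, Finset.sum_union, Finset.sum_insert]
    · ring
    · rw [mem_Icc]
      omega
    · rw [Finset.disjoint_left]
      intro m h1 h2
      rw [mem_insert, mem_Icc] at h1
      rw [mem_Ioc] at h2
      omega
  · rw [if_neg hM, min_eq_left (by omega), Finset.Ioc_eq_empty (by omega), Finset.sum_empty,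
      add_zero, add_zero]

theorem diff_eq (f : ℕ → ℝ) {X Y : ℕ} (h : X ≤ Y) :
    ∑ t ∈ Ioc X Y, f t = ∑ t ∈ Icc 1 Y, f t - ∑ t ∈ Icc 1 X, f t := by
  have e1 : Icc 1 Y = Icc 1 X ∪ Ioc X Y := by
    ext m
    simp only [mem_union, mem_Icc, mem_Ioc]
    omega
  rw [e1, Finset.sum_union]
  · ring
  · rw [Finset.disjoint_left]
    intro m h1 h2
    rw [mem_Icc] at h1
    rw [mem_Ioc] at h2
    omega

theorem diff_le (f : ℕ → ℝ) {X Y X' Y' : ℕ} (h : X ≤ Y) (h1 : X' ≤ X) (h2 : Y ≤ Y') :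
    |∑ t ∈ Icc 1 Y, f t - ∑ t ∈ Icc 1 X, f t| ≤ ∑ t ∈ Ioc X' Y', |f t| := by
  rw [← diff_eq f h]
  refine (Finset.abs_sum_le_sum_abs _ _).trans ?_
  exact Finset.sum_le_sum_of_subset_of_nonneg (Finset.Ioc_subset_Ioc h1 h2)
    fun _ _ _ => abs_nonneg _

theorem cover (F : ℕ → ℝ) (H L n : ℕ) : ∑ h ∈ Ioc H (H + n * L), F h =
    ∑ j ∈ range n, ∑ h ∈ Ioc (H + j * L) (H + j * L + L), F h := by
  induction n with
  | zero => simp
  | succ n ih =>
    rw [Finset.sum_range_succ, ← ih]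
    have e1 : H + (n + 1) * L = H + n * L + L := by ring
    rw [e1]
    exact (Finset.sum_Ioc_consecutive F (by omega) (by omega)).symm

theorem rge_posg {A K B T : ℕ} (hT : T ≤ K * B) :
    Rge (Polynomial.C (A : ℤ) * Polynomial.X) (3 * (A * K) + 15) B T := by
  intro u hu1 hu2
  have h1 : (u : ℤ) ≤ K * B := by exact_mod_cast hu2.trans hT
  have hA0 : (0 : ℤ) ≤ A := Int.natCast_nonneg _
  have h2 : (A : ℤ) * u ≤ A * (K * B) := mul_le_mul_of_nonneg_left h1 hA0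
  have h3 : (0 : ℤ) ≤ A * u := by positivity
  have h4 : (0 : ℤ) ≤ B := Int.natCast_nonneg _
  rw [Polynomial.eval_mul, Polynomial.eval_C, Polynomial.eval_X]
  push_cast
  constructor
  · linarith
  · linarith

theorem rge_negg {A K B T : ℕ} (hT : 2 * (A * T) ≤ B) :
    Rge (Polynomial.C (-(A : ℤ)) * Polynomial.X) (3 * (A * K) + 15) B T := by
  intro u hu1 hu2
  have h0 : A * u ≤ A * T := Nat.mul_le_mul_left _ hu2
  have h1 : 2 * ((A : ℤ) * u) ≤ B := by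
    have : 2 * (A * u) ≤ B := by omega
    exact_mod_cast this
  have h2 : (0 : ℤ) ≤ (A : ℤ) * K * B := by positivity
  have h3 : (0 : ℤ) ≤ A * u := by positivity
  rw [Polynomial.eval_mul, Polynomial.eval_C, Polynomial.eval_X]
  push_cast
  constructor
  · linarith
  · linarith

/-- the elementary facts about a block -/
theorem facts {A N H P L PN B T b0 K : ℕ} (hA : 1 ≤ A) (hN : 4 ≤ N)
    (hP1 : H ≤ P) (hP2 : P ≤ 3 * H) (hL1 : H ≤ N * L) (hL2 : N * L ≤ 2 * H)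
    (g1 : 2 * (A * P) ≤ PN + b0) (g2 : PN ≤ 2 * (A * P) + b0)
    (h1 : 7 * A * N ^ 2 ≤ H) (h2 : A * K + 12 * A ≤ H) (hb : b0 * N ≤ H)
    (hB : B = PN * N / (N + 1)) (hT : T = B / (2 * A)) :
    H ≤ B ∧ B ≤ PN ∧ B ≤ 7 * (A * H) ∧ B ≤ L ^ 2 ∧ T ≤ P ∧ 2 * (A * T) ≤ B ∧
    4 * PN < 5 * (B + 1) ∧ 2 * (A * L) ≤ A * P ∧ A * (P + L) ≤ PN ∧ PN + 2 * (A * L) ≤ 4 * B ∧
    (N + 1) * B ≤ PN * N ∧ P * N + L * N < T * N + 7 * H ∧ 2 * L ≤ H ∧
    A * (K * B) + A * L + PN + 2 * (A * L) ≤ B ^ 2 ∧ 2 * PN + 2 * (A * L) ≤ B ^ 2 := by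
  have fB1 : (N + 1) * B ≤ PN * N := by
    rw [hB]
    exact Nat.mul_div_le _ _
  have fB2 : PN * N < (N + 1) * (B + 1) := by
    rw [hB]
    exact Nat.lt_mul_div_succ _ (by omega)
  have fA : H ≤ A * H := Nat.le_mul_of_pos_left _ hA
  have fAP : A * H ≤ A * P := Nat.mul_le_mul_left _ hP1
  have fAP2 : A * P ≤ 3 * (A * H) := by
    calc A * P ≤ A * (3 * H) := Nat.mul_le_mul_left _ hP2
      _ = 3 * (A * H) := by ring
  have f4b : 4 * b0 ≤ H := by
    calc 4 * b0 = b0 * 4 := by ring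
      _ ≤ b0 * N := Nat.mul_le_mul_left _ hN
      _ ≤ H := hb
  have f4L : 2 * L ≤ H := by
    have : 4 * L ≤ N * L := Nat.mul_le_mul_right _ hN
    omega
  have f7 : 7 * N ^ 2 ≤ H := by nlinarith
  have fNH : 7 * N ≤ H := by nlinarith
  have f12 : 12 * A ≤ H := by omega
  have fHB : H ≤ B := by
    by_contra hcon
    have e1 : (N + 1) * (B + 1) ≤ (N + 1) * H := Nat.mul_le_mul_left _ (by omega)
    have e2 : 2 * (H * N) ≤ PN * N + b0 * N := by
      calc 2 * (H * N) = 2 * H * N := by ring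
        _ ≤ (PN + b0) * N := Nat.mul_le_mul_right _ (by omega)
        _ = PN * N + b0 * N := by ring
    have e3 : 4 * H ≤ H * N := by nlinarith
    have e4 : (N + 1) * H = H * N + H := by ring
    omega
  have fB4 : B ≤ PN := by
    have e1 : (N + 1) * B ≤ (N + 1) * PN := by nlinarith
    exact Nat.le_of_mul_le_mul_left e1 (by omega)
  have fBH : B ≤ 7 * (A * H) := by omega
  have fBL : B ≤ L ^ 2 := by
    have e1 : H * H ≤ (N * L) * (N * L) := Nat.mul_le_mul hL1 hL1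
    have e2 : 7 * A * N ^ 2 * H ≤ H * H := Nat.mul_le_mul_right _ h1
    have e3 : N ^ 2 * (7 * (A * H)) ≤ N ^ 2 * L ^ 2 := by
      calc N ^ 2 * (7 * (A * H)) = 7 * A * N ^ 2 * H := by ring
        _ ≤ H * H := e2
        _ ≤ (N * L) * (N * L) := e1
        _ = N ^ 2 * L ^ 2 := by ring
    have e4 : 7 * (A * H) ≤ L ^ 2 := Nat.le_of_mul_le_mul_left e3 (by positivity)
    omega
  have fT1 : 2 * A * T ≤ B := by
    rw [hT]
    exact Nat.mul_div_le _ _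
  have fT2 : B < 2 * A * (T + 1) := by
    rw [hT]
    exact Nat.lt_mul_div_succ _ (by omega)
  have fTP : T ≤ P := by
    have e1 : (2 * A * (N + 1)) * T ≤ (2 * A * (N + 1)) * P := by
      calc (2 * A * (N + 1)) * T = (N + 1) * (2 * A * T) := by ring
        _ ≤ (N + 1) * B := Nat.mul_le_mul_left _ fT1
        _ ≤ PN * N := fB1
        _ ≤ (2 * (A * P) + b0) * N := Nat.mul_le_mul_right _ g2
        _ = 2 * (A * P) * N + b0 * N := by ring
        _ ≤ 2 * (A * P) * N + 2 * (A * P) := by omega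
        _ = (2 * A * (N + 1)) * P := by ring
    exact Nat.le_of_mul_le_mul_left e1 (by positivity)
  have f45 : 4 * PN < 5 * (B + 1) := by
    have e1 : N * (4 * PN) < N * (5 * (B + 1)) := by
      calc N * (4 * PN) = 4 * (PN * N) := by ring
        _ < 4 * ((N + 1) * (B + 1)) := by omega
        _ = (4 * N + 4) * (B + 1) := by ring
        _ ≤ (5 * N) * (B + 1) := Nat.mul_le_mul_right _ (by omega)
        _ = N * (5 * (B + 1)) := by ring
    exact Nat.lt_of_mul_lt_mul_left e1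
  have fAL : 2 * (A * L) ≤ A * P := by
    calc 2 * (A * L) = A * (2 * L) := by ring
      _ ≤ A * P := Nat.mul_le_mul_left _ (by omega)
  have fAL2 : 2 * (A * L) ≤ A * H := by
    calc 2 * (A * L) = A * (2 * L) := by ring
      _ ≤ A * H := Nat.mul_le_mul_left _ f4L
  have fAPL : A * (P + L) ≤ PN := by
    have e1 : A * (P + L) = A * P + A * L := by ring
    omega
  have fB5 : 7 * 16 ≤ H := by nlinarith
  have f4B : PN + 2 * (A * L) ≤ 4 * B := by omega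
  have fL' : P * N + L * N < T * N + 7 * H := by
    have e1 : 2 * (A * P) * N ≤ PN * N + b0 * N := by
      calc 2 * (A * P) * N ≤ (PN + b0) * N := Nat.mul_le_mul_right _ g1
        _ = PN * N + b0 * N := by ring
    have e2 : (N + 1) * (B + 1) ≤ (N + 1) * (2 * A * (T + 1)) := Nat.mul_le_mul_left _ (by omega)
    have e3 : 2 * A * (P * N) < 2 * A * ((N + 1) * (T + 1) + H) := by
      calc 2 * A * (P * N) = 2 * (A * P) * N := by ring
        _ ≤ PN * N + b0 * N := e1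
        _ < (N + 1) * (B + 1) + H := by omega
        _ ≤ (N + 1) * (2 * A * (T + 1)) + H := by omega
        _ ≤ (N + 1) * (2 * A * (T + 1)) + 2 * (A * H) := by omega
        _ = 2 * A * ((N + 1) * (T + 1) + H) := by ring
    have e4 : P * N < (N + 1) * (T + 1) + H := Nat.lt_of_mul_lt_mul_left e3
    have e5 : (N + 1) * (T + 1) = T * N + N + T + 1 := by ring
    have e6 : L * N = N * L := mul_comm _ _
    omega
  have fHH : A * (K * B) + 12 * (A * B) ≤ B ^ 2 := by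
    calc A * (K * B) + 12 * (A * B) = (A * K + 12 * A) * B := by ring
      _ ≤ B * B := Nat.mul_le_mul_right _ (by omega)
      _ = B ^ 2 := by ring
  have fAB : A * H ≤ A * B := Nat.mul_le_mul_left _ fHB
  have fBA : B ≤ A * B := Nat.le_mul_of_pos_left _ hA
  refine ⟨fHB, fB4, fBH, fBL, fTP, by rw [← mul_assoc]; exact fT1, f45, fAL, fAPL, f4B, fB1, fL',
    f4L, by omega, by omega⟩


theorem lam_abs (n : ℤ) : |lam n| ≤ 1 := by
  unfold lam
  split_ifs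
  · rw [abs_zero]
    exact zero_le_one
  · rw [abs_pow, abs_neg, abs_one, one_pow]

theorem lam_neg (n : ℤ) : lam (-n) = lam n := by
  by_cases h : n = 0
  · rw [h, neg_zero]
  · unfold lam
    rw [if_neg h, if_neg (neg_ne_zero.2 h), Int.natAbs_neg]

/-- the terms of the sum over `u` -/
def ga (α c β : ℤ) (t : ℕ) : ℝ := lam ((t : ℤ) * (α * t + β) + c)

theorem ga_abs (α c β : ℤ) (t : ℕ) : |ga α c β t| ≤ 1 := lam_abs _

theorem sum_ga_abs (α c β : ℤ) (X Y : ℕ) : ∑ t ∈ Ioc X Y, |ga α c β t| ≤ ((Y - X : ℕ) : ℝ) := by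
  refine (Finset.sum_le_sum fun t _ => ga_abs α c β t).trans (le_of_eq ?_)
  rw [Finset.sum_const, Nat.card_Ioc, nsmul_eq_mul, mul_one]

theorem plusl (A : ℕ) (b c : ℤ) (h M : ℕ) :
    ∑ m ∈ Ioc h M, lam (Vg A b 1 c h m) =
    ∑ t ∈ Icc 1 (M - h), ga A c (2 * A * h + b) t := by
  refine Finset.sum_nbij' (fun m => m - h) (fun t => t + h) ?_ ?_ ?_ ?_ ?_
  · intro m hm
    rw [mem_Ioc] at hm
    rw [mem_Icc]
    omega
  · intro t ht
    rw [mem_Icc] at ht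
    rw [mem_Ioc]
    omega
  · intro m hm
    rw [mem_Ioc] at hm
    show m - h + h = m
    omega
  · intro t _
    show t + h - h = t
    omega
  · intro m hm
    rw [mem_Ioc] at hm
    obtain ⟨t, rfl⟩ := Nat.exists_eq_add_of_le hm.1.le
    show lam (Vg A b 1 c h (h + t)) = ga A c (2 * A * h + b) (h + t - h)
    rw [Nat.add_sub_cancel_left]
    unfold ga
    congr 1
    unfold Vg
    push_cast
    ring

theorem minusl (A : ℕ) (b c : ℤ) (h M : ℕ) :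
    ∑ m ∈ Icc 1 (min M (h - 1)), lam (Vg A b 1 c h m) =
    ∑ t ∈ Ioc (h - 1 - M) (h - 1), ga (-A) (-c) (2 * A * h + b) t := by
  refine Finset.sum_nbij' (fun m => h - m) (fun t => h - t) ?_ ?_ ?_ ?_ ?_
  · intro m hm
    rw [mem_Icc] at hm
    rw [mem_Ioc]
    omega
  · intro t ht
    rw [mem_Ioc] at ht
    rw [mem_Icc]
    omega
  · intro m hm
    rw [mem_Icc] at hm
    show h - (h - m) = m
    omega
  · intro t ht
    rw [mem_Ioc] at ht
    show h - (h - t) = t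
    omega
  · intro m hm
    rw [mem_Icc] at hm
    obtain ⟨t, rfl⟩ := Nat.exists_eq_add_of_le (show m ≤ h by omega)
    show lam (Vg A b 1 c (m + t) m) = ga (-A) (-c) (2 * A * ((m + t : ℕ) : ℤ) + b) (m + t - m)
    rw [Nat.add_sub_cancel_left]
    unfold ga
    rw [← lam_neg]
    congr 1
    unfold Vg
    push_cast
    ring

theorem Vg_self (a b τ c : ℤ) (h : ℕ) : Vg a b τ c h h = c := by
  unfold Vg
  ring

/-- one `h` -/
theorem per_hl (A : ℕ) (b c : ℤ) (P L M T h : ℕ) (hh : h ∈ Ioc P (P + L)) (hT : T ≤ P) :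
    |∑ m ∈ Icc 1 M, lam (Vg A b 1 c h m)| ≤
      |∑ t ∈ Icc 1 (M - (P + L)), ga A c (2 * A * h + b) t| +
      |∑ t ∈ Icc 1 T, ga (-A) (-c) (2 * A * h + b) t| +
      |∑ t ∈ Icc 1 (min T (P + L - M)), ga (-A) (-c) (2 * A * h + b) t| +
      (2 * (L : ℝ) + 2 * ((P + L - T : ℕ) : ℝ) + 1) := by
  rw [mem_Ioc] at hh
  obtain ⟨f, hf⟩ : ∃ f : ℕ → ℝ, f = ga A c (2 * A * h + b) := ⟨_, rfl⟩
  obtain ⟨g, hg⟩ : ∃ g : ℕ → ℝ, g = ga (-A) (-c) (2 * A * h + b) := ⟨_, rfl⟩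
  rw [split_h _ h M (by omega), plusl, minusl, ← hf, ← hg, Vg_self]
  have hf1 : ∀ X Y : ℕ, ∑ t ∈ Ioc X Y, |f t| ≤ ((Y - X : ℕ) : ℝ) := by
    intro X Y
    rw [hf]
    exact sum_ga_abs _ _ _ _ _
  have hg1 : ∀ X Y : ℕ, ∑ t ∈ Ioc X Y, |g t| ≤ ((Y - X : ℕ) : ℝ) := by
    intro X Y
    rw [hg]
    exact sum_ga_abs _ _ _ _ _
  have s1 : |∑ t ∈ Icc 1 (M - h), f t - ∑ t ∈ Icc 1 (M - (P + L)), f t| ≤ L := by
    refine (diff_le f (X' := M - (P + L)) (Y' := M - (P + L) + L) (by omega) le_rfl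
      (by omega)).trans ((hf1 _ _).trans (le_of_eq ?_))
    rw [Nat.add_sub_cancel_left]
  have s2 : |∑ t ∈ Icc 1 (h - 1), g t - ∑ t ∈ Icc 1 T, g t| ≤ ((P + L - T : ℕ) : ℝ) :=
    (diff_le g (by omega) le_rfl (by omega)).trans (hg1 _ _)
  have p1 : (0 : ℝ) ≤ ((P + L - T : ℕ) : ℝ) := Nat.cast_nonneg _
  have p2 : (0 : ℝ) ≤ (L : ℝ) := Nat.cast_nonneg _
  have s3 : |∑ t ∈ Icc 1 (h - 1 - M), g t - ∑ t ∈ Icc 1 (min T (P + L - M)), g t| ≤
      L + ((P + L - T : ℕ) : ℝ) := by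
    rcases le_total (h - 1 - M) (min T (P + L - M)) with hc | hc
    · rw [abs_sub_comm]
      have h1 := diff_le g (X' := P - M) (Y' := P - M + L) hc (by omega) (by
        have := min_le_right T (P + L - M)
        omega)
      have h2 := hg1 (P - M) (P - M + L)
      rw [Nat.add_sub_cancel_left] at h2
      linarith
    · rcases le_or_gt T (P + L - M) with hT' | hT'
      · rw [min_eq_left hT'] at hc ⊢
        have h1 := diff_le g (X' := T) (Y' := P + L) hc le_rfl (by omega)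
        have h2 := hg1 T (P + L)
        linarith
      · rw [min_eq_right hT'.le] at hc ⊢
        have h9 : h - 1 - M = P + L - M := by omega
        rw [h9, sub_self, abs_zero]
        linarith
  have s4 : ∑ t ∈ Ioc (h - 1 - M) (h - 1), g t = ∑ t ∈ Icc 1 (h - 1), g t -
      ∑ t ∈ Icc 1 (h - 1 - M), g t := diff_eq g (by omega)
  rw [s4]
  have s5 : |(if h ≤ M then lam c else 0)| ≤ 1 := by
    split_ifs
    · exact lam_abs _
    · rw [abs_zero]
      exact zero_le_one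
  have t1 := abs_le.1 s1
  have t2 := abs_le.1 s2
  have t3 := abs_le.1 s3
  have t5 := abs_le.1 s5
  have u1 := abs_le.1 (le_refl |∑ t ∈ Icc 1 (M - (P + L)), f t|)
  have u2 := abs_le.1 (le_refl |∑ t ∈ Icc 1 T, g t|)
  have u3 := abs_le.1 (le_refl |∑ t ∈ Icc 1 (min T (P + L - M)), g t|)
  rw [abs_le]
  constructor
  · linarith [t1.1, t2.1, t3.1, t5.1, u1.1, u2.1, u3.1, t1.2, t2.2, t3.2, t5.2, u1.2, u2.2, u3.2]
  · linarith [t1.1, t2.1, t3.1, t5.1, u1.1, u2.1, u3.1, t1.2, t2.2, t3.2, t5.2, u1.2, u2.2, u3.2]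

/-- the mean value theorem for fixed `B` -/
def MH (K : ℕ) (ε δ : ℝ) (B : ℕ) (α : ℤ) : Prop := ∀ (T : ℕ) (c : ℤ), c ≠ 0 →
  (c.natAbs : ℝ) ≤ K * ((B : ℝ) * T) → (B : ℝ) ≤ (T : ℝ) * Real.log B → T ≤ K * B →
  Rge (Polynomial.C α * Polynomial.X) K B T →
  ∑ b ∈ (Ioc B (4 * B)).filter (fun b : ℕ => (1 + δ) * (B : ℝ) ≤ (b : ℝ)),
    |∑ t ∈ Icc 1 T, lam ((t : ℤ) * (α * t + b) + c)| ≤ ε * ((B : ℝ) * T)

theorem exists_MH {α : ℤ} (hα : α ≠ 0) (hM : S_MCL2u (Polynomial.C α * Polynomial.X)) (K : ℕ)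
    (ε δ : ℝ) (hK : 1 ≤ K) (hε : 0 < ε) (hδ : 0 < δ) : ∃ B0 : ℕ, ∀ B : ℕ, B0 ≤ B → MH K ε δ B α := by
  obtain ⟨B0, hB0⟩ := hM K 1 ε δ hK hε hδ
  refine ⟨B0, fun B hB T c hc h1 h2 h3 h4 => ?_⟩
  have hd : (Polynomial.C α * Polynomial.X : Polynomial ℤ).natDegree = 1 :=
    Polynomial.natDegree_C_mul_X α hα
  have h5 := hB0 B hB T c hc h1 (by rw [hd, pow_one, pow_one]; exact h2)
    (by rw [hd, pow_one]; exact h3) h4
  simpa only [Polynomial.eval_mul, Polynomial.eval_C, Polynomial.eval_X] using h5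

theorem mainl {ε1 δ : ℝ} {K' B : ℕ} (hε1 : 0 ≤ ε1) {α b : ℤ} (hMC : MH K' ε1 δ B α)
    {c : ℤ} (hc : c ≠ 0) {A P L T PN : ℕ} (hA : 1 ≤ A) (hPN : (PN : ℤ) = 2 * A * P + b)
    (hδ : (1 + δ) * (B : ℝ) ≤ PN) (hBP : B ≤ PN) (hPB : PN + 2 * (A * L) ≤ 4 * B)
    (hlog : (B : ℝ) ≤ (L : ℝ) * Real.log B) (hT : T ≤ K' * B)
    (hcT : (c.natAbs : ℝ) ≤ K' * ((B : ℝ) * L))
    (hR : Rge (Polynomial.C α * Polynomial.X) K' B T) :
    ∑ h ∈ Ioc P (P + L), |∑ t ∈ Icc 1 T, ga α c (2 * A * h + b) t| ≤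
      (L : ℝ) ^ 2 + ε1 * K' * (B : ℝ) ^ 2 := by
  have hA0 : (0 : ℤ) ≤ A := Int.natCast_nonneg _
  have hA' : (1 : ℤ) ≤ A := by exact_mod_cast hA
  rcases le_or_gt T L with hTL | hTL
  · have h2 : ∑ h ∈ Ioc P (P + L), |∑ t ∈ Icc 1 T, ga α c (2 * A * h + b) t| ≤
        ∑ _h ∈ Ioc P (P + L), (L : ℝ) := by
      refine Finset.sum_le_sum fun h _ => ?_
      refine (Finset.abs_sum_le_sum_abs _ _).trans ?_
      refine (Finset.sum_le_sum fun t _ => ga_abs _ _ _ t).trans ?_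
      rw [Finset.sum_const, Nat.card_Icc, nsmul_eq_mul, mul_one]
      have : T + 1 - 1 ≤ L := by omega
      exact_mod_cast this
    rw [Finset.sum_const, Nat.card_Ioc, nsmul_eq_mul, Nat.add_sub_cancel_left] at h2
    have h3 : 0 ≤ ε1 * K' * (B : ℝ) ^ 2 := by positivity
    nlinarith
  · have hTL' : (L : ℝ) ≤ T := by exact_mod_cast hTL.le
    have hB1 : 0 ≤ Real.log B := Real.log_natCast_nonneg B
    have hKB : (0 : ℝ) ≤ K' * B := by positivity
    have h1 := hMC T c hc (hcT.trans (by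
      rw [← mul_assoc, ← mul_assoc]
      exact mul_le_mul_of_nonneg_left hTL' hKB))
      (hlog.trans (mul_le_mul_of_nonneg_right hTL' hB1)) hT hR
    have hfac : ∀ h ∈ Ioc P (P + L), (PN : ℤ) < 2 * A * h + b ∧ 2 * A * h + b ≤ PN + 2 * (A * L) := by
      intro h hh
      rw [mem_Ioc] at hh
      have e3 : (A : ℤ) * (P + 1) ≤ A * h :=
        mul_le_mul_of_nonneg_left (by exact_mod_cast hh.1) hA0
      have e4 : (A : ℤ) * h ≤ A * (P + L) :=
        mul_le_mul_of_nonneg_left (by exact_mod_cast hh.2) hA0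
      constructor <;> linarith
    have h2 : ∑ h ∈ Ioc P (P + L), |∑ t ∈ Icc 1 T, ga α c (2 * A * h + b) t| ≤
        ∑ b ∈ (Ioc B (4 * B)).filter (fun b : ℕ => (1 + δ) * (B : ℝ) ≤ (b : ℝ)),
          |∑ t ∈ Icc 1 T, lam ((t : ℤ) * (α * t + b) + c)| := by
      have hinj : Set.InjOn (fun h : ℕ => (2 * A * h + b : ℤ).toNat) (Ioc P (P + L) : Set ℕ) := by
        intro x hx y hy hxy
        have e1 := hfac x (Finset.mem_coe.1 hx)
        have e2 := hfac y (Finset.mem_coe.1 hy)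
        simp only at hxy
        have e3 : (2 * A * x : ℤ) = 2 * A * y := by
          generalize (2 * A * x : ℤ) = w1 at *
          generalize (2 * A * y : ℤ) = w2 at *
          omega
        have e4 : (2 * (A : ℤ)) ≠ 0 := by omega
        have e5 := mul_left_cancel₀ e4 e3
        exact_mod_cast e5
      calc ∑ h ∈ Ioc P (P + L), |∑ t ∈ Icc 1 T, ga α c (2 * A * h + b) t|
          = ∑ b ∈ (Ioc P (P + L)).image (fun h : ℕ => (2 * A * h + b : ℤ).toNat),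
            |∑ t ∈ Icc 1 T, lam ((t : ℤ) * (α * t + b) + c)| := by
            rw [Finset.sum_image hinj]
            refine Finset.sum_congr rfl fun h hh => ?_
            have e1 := hfac h hh
            have e2 : (((2 * A * h + b : ℤ).toNat : ℕ) : ℤ) = 2 * A * h + b :=
              Int.toNat_of_nonneg (by omega)
            unfold ga
            rw [e2]
        _ ≤ _ := by
            refine Finset.sum_le_sum_of_subset_of_nonneg ?_ fun _ _ _ => abs_nonneg _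
            intro v hv
            rw [mem_image] at hv
            obtain ⟨h, hh, rfl⟩ := hv
            have e1 := hfac h hh
            rw [mem_filter, mem_Ioc]
            obtain ⟨w, hw⟩ : ∃ w : ℤ, w = 2 * A * h + b := ⟨_, rfl⟩
            rw [← hw] at e1 ⊢
            have e5 : PN ≤ w.toNat := by omega
            refine ⟨?_, ?_⟩
            · push_cast at *
              have e6 : w ≤ ((PN + 2 * (A * L) : ℕ) : ℤ) := by
                push_cast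
                exact e1.2
              omega
            · have h3 : (PN : ℝ) ≤ (w.toNat : ℝ) := by exact_mod_cast e5
              linarith
    have h4 : (T : ℝ) ≤ K' * B := by exact_mod_cast hT
    have h5 : ε1 * ((B : ℝ) * T) ≤ ε1 * K' * (B : ℝ) ^ 2 := by
      calc ε1 * ((B : ℝ) * T) ≤ ε1 * ((B : ℝ) * (K' * B)) := by gcongr
        _ = ε1 * K' * (B : ℝ) ^ 2 := by ring
    have h6 : 0 ≤ (L : ℝ) ^ 2 := by positivity
    linarith

/-- one block -/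
theorem blockl {A K N H : ℕ} {b : ℤ} {ε : ℝ} {c : ℤ} (hA : 1 ≤ A)
    (hK : 1 ≤ K) (hN : 4 ≤ N) (hε : 0 < ε) (hNC : 100 ≤ ε * N) (hc : c ≠ 0)
    (hcK : c.natAbs ≤ K * H ^ 2)
    (hMC : ∀ α : ℤ, (α = A ∨ α = -A) → ∀ B : ℕ, H ≤ B →
      MH (3 * (A * (K * N)) + 15) (ε / (588 * (A : ℝ) ^ 2 * ((3 * (A * (K * N)) + 15 : ℕ) : ℝ) * N))
        (1 / N) B α)
    (h1 : 7 * A * N ^ 2 ≤ H) (h2 : A * K + 12 * A ≤ H) (hb : b.natAbs * N ≤ H)
    (h3 : 7 * (A : ℝ) * N ≤ Real.log H)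
    {M P L : ℕ} (hM : M ≤ K * H) (hP1 : H ≤ P) (hP2 : P ≤ 3 * H) (hL1 : H ≤ N * L)
    (hL2 : N * L ≤ 2 * H) :
    ∑ h ∈ Ioc P (P + L), |∑ m ∈ Icc 1 M, lam (Vg A b 1 c h m)| ≤ ε / N * (H : ℝ) ^ 2 := by
  obtain ⟨b0, hb0⟩ : ∃ b0, b0 = b.natAbs := ⟨_, rfl⟩
  rw [← hb0] at hb
  have hbl : -(b0 : ℤ) ≤ b := by omega
  have hbu : b ≤ (b0 : ℤ) := by omega
  have hbH : b0 ≤ H := by
    have : b0 * 1 ≤ b0 * N := Nat.mul_le_mul_left _ (by omega)
    omega
  have hAPP : P ≤ A * P := Nat.le_mul_of_pos_left _ hA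
  obtain ⟨PN, hPN⟩ : ∃ PN : ℕ, (PN : ℤ) = 2 * A * P + b := by
    refine ⟨(2 * A * P + b : ℤ).toNat, Int.toNat_of_nonneg ?_⟩
    have e1 : (P : ℤ) ≤ A * P := by exact_mod_cast hAPP
    have e2 : (b0 : ℤ) ≤ P := by
      have : b0 ≤ P := hbH.trans hP1
      exact_mod_cast this
    linarith
  have g1 : 2 * (A * P) ≤ PN + b0 := by
    have : (2 : ℤ) * (A * P) ≤ PN + b0 := by
      rw [hPN]
      linarith
    exact_mod_cast this
  have g2 : PN ≤ 2 * (A * P) + b0 := by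
    have : (PN : ℤ) ≤ 2 * (A * P) + b0 := by
      rw [hPN]
      linarith
    exact_mod_cast this
  obtain ⟨B, hB⟩ : ∃ B, B = PN * N / (N + 1) := ⟨_, rfl⟩
  obtain ⟨T, hT⟩ : ∃ T, T = B / (2 * A) := ⟨_, rfl⟩
  obtain ⟨fHB, fB4, fBH, cBL, fTP, fT1, f45, fAL, fAPL, f4B, fB1, fL', f4L, fS1, fS2⟩ :=
    facts hA hN hP1 hP2 hL1 hL2 g1 g2 h1 h2 hb hB hT
  have fH0 : 12 ≤ H := by
    have : 12 ≤ 12 * A := by omega
    omega
  have n2 : T ≤ A * T := Nat.le_mul_of_pos_left _ hA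
  have hHr : (1 : ℝ) ≤ H := by
    have : 1 ≤ H := by omega
    exact_mod_cast this
  have hH0 : (0 : ℝ) < H := by linarith
  have hNr : (4 : ℝ) ≤ N := by exact_mod_cast hN
  have hN0 : (0 : ℝ) < N := by linarith
  have hAr : (1 : ℝ) ≤ A := by exact_mod_cast hA
  have hA0 : (0 : ℝ) < A := by linarith
  have hBr : (B : ℝ) ≤ 7 * (A * H) := by exact_mod_cast fBH
  have hHB : (H : ℝ) ≤ B := by exact_mod_cast fHB
  have hB0 : (0 : ℝ) < B := by linarith
  have hL1r : (H : ℝ) ≤ N * L := by exact_mod_cast hL1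
  have hL2r : (N : ℝ) * L ≤ 2 * H := by exact_mod_cast hL2
  have hLr : (L : ℝ) ≤ 2 * H / N := by
    rw [le_div_iff₀ hN0]
    linarith
  have hL0r : (0 : ℝ) ≤ L := Nat.cast_nonneg _
  obtain ⟨L', hL'⟩ : ∃ L', L' = P + L - T := ⟨_, rfl⟩
  have hL'r : (L' : ℝ) = (P : ℝ) + L - T := by
    rw [hL', Nat.cast_sub (by omega)]
    push_cast
    ring
  have hL'2 : (L' : ℝ) ≤ 7 * H / N := by
    rw [le_div_iff₀ hN0, hL'r]
    have e3 : (P : ℝ) * N + L * N < T * N + 7 * H := by exact_mod_cast fL'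
    linarith
  have cLog : (B : ℝ) ≤ (L : ℝ) * Real.log B := by
    have e1 : Real.log H ≤ Real.log B := Real.log_le_log hH0 hHB
    have e2 : (L : ℝ) * (7 * A * N) ≤ L * Real.log B := mul_le_mul_of_nonneg_left (by linarith) hL0r
    have e3 : (H : ℝ) * (7 * A) ≤ (N * L) * (7 * A) := mul_le_mul_of_nonneg_right hL1r (by positivity)
    have e4 : (L : ℝ) * (7 * A * N) = (N * L) * (7 * A) := by ring
    linarith
  have cδ : (1 + 1 / (N : ℝ)) * (B : ℝ) ≤ PN := by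
    have e1 : ((N : ℝ) + 1) * B ≤ PN * N := by exact_mod_cast fB1
    have e2 : (1 + 1 / (N : ℝ)) * (B : ℝ) = ((N : ℝ) + 1) * B / N := by
      field_simp
    rw [e2, div_le_iff₀ hN0]
    exact e1
  obtain ⟨K', hK'⟩ : ∃ K', K' = 3 * (A * (K * N)) + 15 := ⟨_, rfl⟩
  obtain ⟨ε1, hε1⟩ : ∃ ε1, ε1 = ε / (588 * (A : ℝ) ^ 2 * ((3 * (A * (K * N)) + 15 : ℕ) : ℝ) * N) :=
    ⟨_, rfl⟩
  rw [← hε1] at hMC
  rw [← hK'] at hMC hε1
  have hK'0 : (0 : ℝ) < (K' : ℝ) := by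
    have : 0 < K' := by omega
    exact_mod_cast this
  have hε10 : 0 ≤ ε1 := by
    rw [hε1]
    positivity
  have hKAK : K * N ≤ A * (K * N) := Nat.le_mul_of_pos_left _ hA
  have hKN : K ≤ K * N := Nat.le_mul_of_pos_right _ (by omega)
  have hKK : K * B ≤ K' * B := Nat.mul_le_mul_right _ (by omega)
  have hBK : B ≤ K' * B := Nat.le_mul_of_pos_left _ (by omega)
  have hKH : K * H ≤ K * B := Nat.mul_le_mul_left _ fHB
  have hKNB : K * B ≤ (K * N) * B := Nat.mul_le_mul_right _ hKN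
  have hmin := min_le_left T (P + L - M)
  have hAmin : A * min T (P + L - M) ≤ A * T := Nat.mul_le_mul_left _ hmin
  have cc : (c.natAbs : ℝ) ≤ K' * ((B : ℝ) * L) := by
    have e1 : (c.natAbs : ℝ) ≤ K * (H : ℝ) ^ 2 := by exact_mod_cast hcK
    have e2 : ((K * N : ℕ) : ℝ) ≤ K' := by
      have : K * N ≤ K' := by omega
      exact_mod_cast this
    push_cast at e2
    calc (c.natAbs : ℝ) ≤ K * (H : ℝ) ^ 2 := e1
      _ = K * ((H : ℝ) * H) := by ring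
      _ ≤ K * ((B : ℝ) * (N * L)) := by gcongr
      _ = (K * N) * ((B : ℝ) * L) := by ring
      _ ≤ K' * ((B : ℝ) * L) := mul_le_mul_of_nonneg_right e2 (by positivity)
  have cc' : ((-c).natAbs : ℝ) ≤ K' * ((B : ℝ) * L) := by
    rw [Int.natAbs_neg]
    exact cc
  -- the main terms
  have m1 := mainl (P := P) (L := L) (b := b) (T := M - (P + L)) hε10
    (hMC A (Or.inl rfl) B fHB) hc hA hPN cδ fB4 f4B cLog (by omega) cc (by
      rw [hK']
      exact rge_posg (by omega))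
  have m2 := mainl (P := P) (L := L) (b := b) (T := T) hε10
    (hMC (-A) (Or.inr rfl) B fHB) (neg_ne_zero.2 hc) hA hPN cδ fB4 f4B cLog (by omega) cc' (by
      rw [hK']
      exact rge_negg fT1)
  have m3 := mainl (P := P) (L := L) (b := b) (T := min T (P + L - M)) hε10
    (hMC (-A) (Or.inr rfl) B fHB) (neg_ne_zero.2 hc) hA hPN cδ fB4 f4B cLog (by omega) cc' (by
      rw [hK']
      exact rge_negg (by omega))
  -- the sum
  have hsum : ∑ h ∈ Ioc P (P + L), |∑ m ∈ Icc 1 M, lam (Vg A b 1 c h m)| ≤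
      (∑ h ∈ Ioc P (P + L), |∑ t ∈ Icc 1 (M - (P + L)), ga A c (2 * A * h + b) t|) +
      (∑ h ∈ Ioc P (P + L), |∑ t ∈ Icc 1 T, ga (-A) (-c) (2 * A * h + b) t|) +
      (∑ h ∈ Ioc P (P + L), |∑ t ∈ Icc 1 (min T (P + L - M)), ga (-A) (-c) (2 * A * h + b) t|) +
      L * (2 * (L : ℝ) + 2 * (L' : ℝ) + 1) := by
    have hE2 : (L : ℝ) * (2 * (L : ℝ) + 2 * (L' : ℝ) + 1) =
        ∑ _h ∈ Ioc P (P + L), (2 * (L : ℝ) + 2 * (L' : ℝ) + 1) := by
      rw [Finset.sum_const, Nat.card_Ioc, nsmul_eq_mul, Nat.add_sub_cancel_left]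
    rw [hE2, ← Finset.sum_add_distrib, ← Finset.sum_add_distrib, ← Finset.sum_add_distrib]
    refine Finset.sum_le_sum fun h hh => ?_
    have e2 := per_hl A b c P L M T h hh fTP
    rw [← hL'] at e2
    exact e2
  refine hsum.trans ?_
  have q0 : (1 : ℝ) ≤ H / N := by
    rw [le_div_iff₀ hN0, one_mul]
    have : N ≤ H := by
      have e1 : N ≤ 7 * A * N ^ 2 := by
        calc N = 1 * N ^ 1 := by ring
          _ ≤ 7 * A * N ^ 2 := Nat.mul_le_mul (by omega) (Nat.pow_le_pow_right (by omega) (by omega))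
      omega
    exact_mod_cast this
  have q1 : (L : ℝ) ^ 2 ≤ 4 * (H : ℝ) ^ 2 / N ^ 2 := by
    calc (L : ℝ) ^ 2 ≤ (2 * H / N) ^ 2 := pow_le_pow_left₀ hL0r hLr 2
      _ = 4 * (H : ℝ) ^ 2 / N ^ 2 := by ring
  have q2 : L * (2 * (L : ℝ) + 2 * (L' : ℝ) + 1) ≤ 38 * (H : ℝ) ^ 2 / N ^ 2 := by
    calc L * (2 * (L : ℝ) + 2 * (L' : ℝ) + 1)
        ≤ (2 * H / N) * (2 * (2 * H / N) + 2 * (7 * H / N) + H / N) := by gcongr
      _ = 38 * (H : ℝ) ^ 2 / N ^ 2 := by ring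
  have q3 : ε1 * (K' : ℝ) * (B : ℝ) ^ 2 ≤ ε / (12 * N) * (H : ℝ) ^ 2 := by
    calc ε1 * (K' : ℝ) * (B : ℝ) ^ 2 ≤ ε1 * (K' : ℝ) * (7 * (A * H)) ^ 2 := by
          gcongr
      _ = ε / (12 * N) * (H : ℝ) ^ 2 := by
          rw [hε1]
          field_simp
          ring
  have q4 : (H : ℝ) ^ 2 / N ^ 2 ≤ ε / (100 * N) * (H : ℝ) ^ 2 := by
    have e1 : (H : ℝ) ^ 2 / N ^ 2 = 1 / N ^ 2 * (H : ℝ) ^ 2 := by ring
    rw [e1]
    apply mul_le_mul_of_nonneg_right _ (by positivity)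
    rw [div_le_div_iff₀ (by positivity) (by positivity)]
    nlinarith
  have r1 : ε / (12 * N) * (H : ℝ) ^ 2 = (ε / N * (H : ℝ) ^ 2) / 12 := by
    field_simp
  have r2 : ε / (100 * N) * (H : ℝ) ^ 2 = (ε / N * (H : ℝ) ^ 2) / 100 := by
    field_simp
  have r3 : 4 * (H : ℝ) ^ 2 / N ^ 2 = 4 * ((H : ℝ) ^ 2 / N ^ 2) := by ring
  have r5 : 38 * (H : ℝ) ^ 2 / N ^ 2 = 38 * ((H : ℝ) ^ 2 / N ^ 2) := by ring
  rw [r1] at q3
  rw [r2] at q4
  rw [r3] at q1
  rw [r5] at q2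
  have r4 : 0 ≤ ε / N * (H : ℝ) ^ 2 := by positivity
  linarith

/-- the sum over a dyadic block -/
theorem dyad (hM : ∀ G : Polynomial ℤ, 1 ≤ G.natDegree → S_MCL2u G) {A : ℕ} (hA : 1 ≤ A) (b : ℤ)
    (K : ℕ) (hK : 1 ≤ K) (ε : ℝ) (hε : 0 < ε) : ∃ H0 : ℕ, ∀ H : ℕ, H0 ≤ H → ∀ (M : ℕ) (c : ℤ),
    c ≠ 0 → c.natAbs ≤ K * H ^ 2 → M ≤ K * H →
    ∑ h ∈ Ioc H (2 * H), |∑ m ∈ Icc 1 M, lam (Vg A b 1 c h m)| ≤ ε * (H : ℝ) ^ 2 := by
  obtain ⟨N0, hN0⟩ := exists_nat_ge (100 / ε)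
  obtain ⟨N, hN⟩ : ∃ N, N = N0 + 4 := ⟨_, rfl⟩
  have hN2 : 4 ≤ N := by omega
  have hNr : (0 : ℝ) < N := by
    have : 0 < N := by omega
    exact_mod_cast this
  have hNC : 100 ≤ ε * N := by
    have e1 : (N0 : ℝ) ≤ N := by
      have : N0 ≤ N := by omega
      exact_mod_cast this
    have e2 : 100 / ε ≤ N := hN0.trans e1
    rw [div_le_iff₀ hε] at e2
    linarith
  have hAr : (1 : ℝ) ≤ A := by exact_mod_cast hA
  have hK'0 : (0 : ℝ) < ((3 * (A * (K * N)) + 15 : ℕ) : ℝ) := by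
    have : 0 < 3 * (A * (K * N)) + 15 := by omega
    exact_mod_cast this
  have hε1 : 0 < ε / (588 * (A : ℝ) ^ 2 * ((3 * (A * (K * N)) + 15 : ℕ) : ℝ) * N) := by positivity
  have hδ : 0 < 1 / (N : ℝ) := by positivity
  have hd : ∀ α : ℤ, α ≠ 0 → 1 ≤ (Polynomial.C α * Polynomial.X : Polynomial ℤ).natDegree := by
    intro α hα
    rw [Polynomial.natDegree_C_mul_X α hα]
  have ha1 : (A : ℤ) ≠ 0 := by omega
  have ha2 : (-A : ℤ) ≠ 0 := by omega
  obtain ⟨B1, hB1⟩ := exists_MH ha1 (hM _ (hd _ ha1)) (3 * (A * (K * N)) + 15) _ _ (by omega) hε1 hδ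
  obtain ⟨B2, hB2⟩ := exists_MH ha2 (hM _ (hd _ ha2)) (3 * (A * (K * N)) + 15) _ _ (by omega) hε1 hδ
  have hlog : ∀ᶠ H : ℕ in Filter.atTop, 7 * (A : ℝ) * N ≤ Real.log H :=
    (Real.tendsto_log_atTop.comp tendsto_natCast_atTop_atTop).eventually_ge_atTop _
  have hev := ((hlog.and (Filter.eventually_ge_atTop B1)).and (Filter.eventually_ge_atTop B2)).and
    ((Filter.eventually_ge_atTop (7 * A * N ^ 2)).and
      ((Filter.eventually_ge_atTop (A * K + 12 * A)).and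
        (Filter.eventually_ge_atTop (b.natAbs * N))))
  obtain ⟨H0, hH0⟩ := Filter.eventually_atTop.1 hev
  refine ⟨H0, fun H hH M c hc hcK hMK => ?_⟩
  obtain ⟨⟨⟨k2, k3⟩, k4⟩, k6, k7, k8⟩ := hH0 H hH
  obtain ⟨F, hF⟩ : ∃ F : ℕ → ℝ, F = fun h : ℕ => |∑ m ∈ Icc 1 M, lam (Vg A b 1 c h m)| :=
    ⟨_, rfl⟩
  have hF0 : ∀ h, 0 ≤ F h := fun h => by
    rw [hF]
    exact abs_nonneg _
  obtain ⟨L, hL⟩ : ∃ L, L = H / N + 1 := ⟨_, rfl⟩
  have hNH : N ≤ H := by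
    have e1 : N ≤ 7 * A * N ^ 2 := by
      calc N = 1 * N ^ 1 := by ring
        _ ≤ 7 * A * N ^ 2 := Nat.mul_le_mul (by omega) (Nat.pow_le_pow_right (by omega) (by omega))
    omega
  have hL1 : H ≤ N * L := by
    rw [hL]
    exact (Nat.lt_mul_div_succ H (by omega)).le
  have hL2 : N * L ≤ 2 * H := by
    rw [hL, Nat.mul_add, Nat.mul_one]
    have := Nat.mul_div_le H N
    omega
  have hblock : ∀ j ∈ range N, ∑ h ∈ Ioc (H + j * L) (H + j * L + L), F h ≤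
      ε / N * (H : ℝ) ^ 2 := by
    intro j hj
    rw [mem_range] at hj
    have hjL : j * L ≤ N * L := Nat.mul_le_mul_right _ hj.le
    rw [hF]
    exact blockl hA hK hN2 hε hNC hc hcK
      (fun α hα B hB => by
        rcases hα with rfl | rfl
        · exact hB1 B (k3.trans hB)
        · exact hB2 B (k4.trans hB))
      k6 k7 k8 k2 hMK (by omega) (by omega) hL1 hL2
  have hsub : ∑ h ∈ Ioc H (2 * H), F h ≤ ∑ h ∈ Ioc H (H + N * L), F h := by
    refine Finset.sum_le_sum_of_subset_of_nonneg ?_ fun _ _ _ => hF0 _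
    exact Finset.Ioc_subset_Ioc_right (by omega)
  have hfin : ∑ h ∈ Ioc H (2 * H), F h ≤ ε * (H : ℝ) ^ 2 := by
    refine hsub.trans ?_
    rw [cover F H L N]
    refine (Finset.sum_le_sum hblock).trans (le_of_eq ?_)
    rw [Finset.sum_const, card_range, nsmul_eq_mul]
    field_simp
  rw [hF] at hfin
  exact hfin

end

end Pool.Agent.N27.QV
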